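import Mathlib

/-!
# Project UW, T1a: elementary symmetric sums
-/

set_option autoImplicit false
open MeasureTheory Set Filter Topology

namespace Pool.Agent.Helper8.UW

/-- `|1 + z| ≤ exp (Re z - Re z²/2 + |z|³)` -/
lemma norm_one_add_le {z : ℂ} (hz : ‖z‖ ≤ 1 / 2) : ‖1 + z‖ ≤ Real.exp ((z - z ^ 2 / 2).re + ‖z‖ ^ 3) := by
  have hz1 : ‖z‖ < 1 := by linarith
  have h1 := Complex.norm_log_sub_logTaylor_le 2 hz1
  have h2 : Complex.logTaylor (2 + 1) z = z - z ^ 2 / 2 := by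
    rw [Complex.logTaylor_succ, Complex.logTaylor_succ, Complex.logTaylor_succ, Complex.logTaylor_zero]
    simp
    ring
  rw [h2] at h1
  have hne : 1 + z ≠ 0 := by
    intro h
    have : z = -1 := by linear_combination h
    rw [this] at hz
    norm_num at hz
  have h3 : ‖1 + z‖ = Real.exp (Complex.log (1 + z)).re := by
    rw [Complex.log_re, Real.exp_log (norm_pos_iff.2 hne)]
  rw [h3]
  refine Real.exp_le_exp.2 ?_
  have h4 : (Complex.log (1 + z)).re - (z - z ^ 2 / 2).re ≤ ‖Complex.log (1 + z) - (z - z ^ 2 / 2)‖ := by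
    rw [← Complex.sub_re]
    exact Complex.re_le_norm _
  have h5 : ‖z‖ ^ (2 + 1) * (1 - ‖z‖)⁻¹ / ((2 : ℕ) + 1) ≤ ‖z‖ ^ 3 := by
    have h6 : (1 - ‖z‖)⁻¹ ≤ 2 := by
      rw [inv_le_comm₀ (by linarith) (by norm_num)]
      linarith
    have h7 : 0 ≤ ‖z‖ ^ 3 := by positivity
    rw [div_le_iff₀ (by norm_num)]
    push_cast
    calc ‖z‖ ^ (2 + 1) * (1 - ‖z‖)⁻¹ ≤ ‖z‖ ^ (2 + 1) * 2 := mul_le_mul_of_nonneg_left h6 (by positivity)
      _ = ‖z‖ ^ 3 * 2 := by norm_num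
      _ ≤ ‖z‖ ^ 3 * (2 + 1) := mul_le_mul_of_nonneg_left (by norm_num) h7
  linarith

lemma norm_prod_le {Q : Finset ℕ} (x : ℕ → ℂ) (hx : ∀ p ∈ Q, ‖x p‖ ≤ 1 / 2) {w : ℂ} (hw : ‖w‖ = 1) :
    ‖∏ p ∈ Q, (1 + w * x p)‖ ≤ Real.exp (‖∑ p ∈ Q, x p‖ + ‖∑ p ∈ Q, x p ^ 2‖ + ∑ p ∈ Q, ‖x p‖ ^ 3) := by
  rw [norm_prod]
  have h1 : ∏ p ∈ Q, ‖1 + w * x p‖ ≤ ∏ p ∈ Q, Real.exp ((w * x p - (w * x p) ^ 2 / 2).re + ‖w * x p‖ ^ 3) := by
    refine Finset.prod_le_prod (fun _ _ => norm_nonneg _) fun p hp => norm_one_add_le ?_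
    rw [norm_mul, hw, one_mul]
    exact hx p hp
  refine h1.trans ?_
  rw [← Real.exp_sum]
  refine Real.exp_le_exp.2 ?_
  rw [Finset.sum_add_distrib]
  have h2 : ∑ p ∈ Q, ‖w * x p‖ ^ 3 = ∑ p ∈ Q, ‖x p‖ ^ 3 := by
    refine Finset.sum_congr rfl fun p _ => ?_
    rw [norm_mul, hw, one_mul]
  have h3 : ∑ p ∈ Q, (w * x p - (w * x p) ^ 2 / 2).re = (w * ∑ p ∈ Q, x p).re - (w ^ 2 * ∑ p ∈ Q, x p ^ 2).re / 2 := by
    rw [← Complex.re_sum, Finset.sum_sub_distrib, Complex.sub_re, Finset.mul_sum, Finset.mul_sum]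
    congr 1
    rw [← Finset.sum_div]
    have e : ∑ p ∈ Q, (w * x p) ^ 2 = ∑ p ∈ Q, w ^ 2 * x p ^ 2 := Finset.sum_congr rfl fun p _ => by ring
    rw [e]
    rw [show (2 : ℂ) = ((2 : ℝ) : ℂ) by norm_num, Complex.div_ofReal_re]
  rw [h2, h3]
  have h4 : (w * ∑ p ∈ Q, x p).re ≤ ‖∑ p ∈ Q, x p‖ := by
    refine (Complex.re_le_norm _).trans ?_
    rw [norm_mul, hw, one_mul]
  have h5 : -(w ^ 2 * ∑ p ∈ Q, x p ^ 2).re ≤ ‖∑ p ∈ Q, x p ^ 2‖ := by
    have h6 := Complex.abs_re_le_norm (w ^ 2 * ∑ p ∈ Q, x p ^ 2)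
    rw [norm_mul, norm_pow, hw, one_pow, one_mul] at h6
    linarith [neg_abs_le (w ^ 2 * ∑ p ∈ Q, x p ^ 2).re]
  have h6 : 0 ≤ ‖∑ p ∈ Q, x p ^ 2‖ := norm_nonneg _
  linarith

/-- one elementary symmetric sum is bounded by the maximum on the circle -/
lemma esum_one {Q : Finset ℕ} (x : ℕ → ℂ) {E : ℝ} (hE : ∀ w : ℂ, ‖w‖ = 1 → ‖∏ p ∈ Q, (1 + w * x p)‖ ≤ E) (k : ℕ) :
    ‖∑ S ∈ Q.powersetCard k, ∏ p ∈ S, x p‖ ≤ E := by
  have hE0 : 0 ≤ E := (norm_nonneg _).trans (hE 1 (by simp))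
  rcases Nat.lt_or_ge Q.card k with hk | hk
  · rw [Finset.powersetCard_eq_empty.2 hk]
    simpa using hE0
  set N := Q.card + 1 with hN
  have hN0 : N ≠ 0 := by omega
  have hN0' : (N : ℂ) ≠ 0 := by exact_mod_cast hN0
  set ζ : ℂ := Complex.exp (2 * Real.pi * Complex.I / N) with hζ
  have hpr : IsPrimitiveRoot ζ N := Complex.isPrimitiveRoot_exp N hN0
  have hζ1 : ‖ζ‖ = 1 := hpr.norm'_eq_one hN0
  have hexp : ∀ w : ℂ, ∏ p ∈ Q, (1 + w * x p) = ∑ S ∈ Q.powerset, w ^ S.card * ∏ p ∈ S, x p := by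
    intro w
    rw [Finset.prod_one_add]
    refine Finset.sum_congr rfl fun S _ => ?_
    rw [Finset.prod_mul_distrib, Finset.prod_const]
  have hsum : ∑ j ∈ Finset.range N, (ζ ^ j) ^ (N - k) * ∏ p ∈ Q, (1 + ζ ^ j * x p) =
      N * ∑ S ∈ Q.powersetCard k, ∏ p ∈ S, x p := by
    have h1 : ∀ j ∈ Finset.range N, (ζ ^ j) ^ (N - k) * ∏ p ∈ Q, (1 + ζ ^ j * x p) =
        ∑ S ∈ Q.powerset, (ζ ^ (N - k + S.card)) ^ j * ∏ p ∈ S, x p := by
      intro j _
      rw [hexp, Finset.mul_sum]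
      refine Finset.sum_congr rfl fun S _ => ?_
      rw [← mul_assoc]
      congr 1
      rw [← pow_mul, ← pow_mul, ← pow_mul, ← pow_add]
      congr 1
      ring
    rw [Finset.sum_congr rfl h1, Finset.sum_comm]
    have h2 : ∀ S ∈ Q.powerset, ∑ j ∈ Finset.range N, (ζ ^ (N - k + S.card)) ^ j * ∏ p ∈ S, x p =
        if S.card = k then (N : ℂ) * ∏ p ∈ S, x p else 0 := by
      intro S hS
      have hSc : S.card ≤ Q.card := Finset.card_le_card (Finset.mem_powerset.1 hS)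
      rw [← Finset.sum_mul]
      split_ifs with hc
      · have h3 : ζ ^ (N - k + S.card) = 1 := by
          rw [hc, Nat.sub_add_cancel (by omega)]
          exact hpr.pow_eq_one
        rw [h3]
        simp
      · have h3 : ζ ^ (N - k + S.card) ≠ 1 := by
          intro h4
          have h5 := (hpr.pow_eq_one_iff_dvd _).1 h4
          obtain ⟨q, hq⟩ := h5
          have hq1 : q = 1 := by
            have h6 : 0 < N - k + S.card := by omega
            have h7 : N - k + S.card < 2 * N := by omega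
            have h8 : 0 < q := by
              rcases Nat.eq_zero_or_pos q with h | h
              · rw [h] at hq; omega
              · exact h
            have h9 : q < 2 := by
              by_contra h10
              push Not at h10
              have := Nat.mul_le_mul_left N h10
              omega
            omega
          rw [hq1] at hq
          omega
        rw [geom_sum_eq h3]
        have h4 : (ζ ^ (N - k + S.card)) ^ N = 1 := by
          rw [← pow_mul, mul_comm, pow_mul, hpr.pow_eq_one, one_pow]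
        rw [h4, sub_self, zero_div, zero_mul]
    rw [Finset.sum_congr rfl h2, ← Finset.sum_filter, Finset.mul_sum]
    refine Finset.sum_congr ?_ fun _ _ => rfl
    ext S
    rw [Finset.mem_filter, Finset.mem_powerset, Finset.mem_powersetCard]
  have h3 : (N : ℝ) * ‖∑ S ∈ Q.powersetCard k, ∏ p ∈ S, x p‖ ≤ N * E := by
    have h4 : ‖(N : ℂ) * ∑ S ∈ Q.powersetCard k, ∏ p ∈ S, x p‖ ≤ ∑ j ∈ Finset.range N, E := by
      rw [← hsum]
      refine (norm_sum_le _ _).trans (Finset.sum_le_sum fun j _ => ?_)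
      have h5 : ‖ζ ^ j‖ = 1 := by rw [norm_pow, hζ1, one_pow]
      rw [norm_mul, norm_pow, h5, one_pow, one_mul]
      exact hE _ h5
    rw [norm_mul, Complex.norm_natCast, Finset.sum_const, Finset.card_range, nsmul_eq_mul] at h4
    exact h4
  exact le_of_mul_le_mul_left h3 (by positivity)

theorem esum {Q : Finset ℕ} (x : ℕ → ℂ) (hx : ∀ p ∈ Q, ‖x p‖ ≤ 1 / 2) (K : ℕ) :
    ‖∑ S ∈ Q.powerset with S.card ≤ K, ∏ p ∈ S, x p‖ ≤
      (K + 1) * Real.exp (‖∑ p ∈ Q, x p‖ + ‖∑ p ∈ Q, x p ^ 2‖ + ∑ p ∈ Q, ‖x p‖ ^ 3) := by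
  set E := Real.exp (‖∑ p ∈ Q, x p‖ + ‖∑ p ∈ Q, x p ^ 2‖ + ∑ p ∈ Q, ‖x p‖ ^ 3) with hE
  have h1 : ∑ S ∈ Q.powerset with S.card ≤ K, ∏ p ∈ S, x p =
      ∑ k ∈ Finset.range (K + 1), ∑ S ∈ Q.powersetCard k, ∏ p ∈ S, x p := by
    rw [← Finset.sum_fiberwise_of_maps_to (s := Q.powerset.filter fun S => S.card ≤ K) (t := Finset.range (K + 1))
      (g := fun S => S.card)]
    · refine Finset.sum_congr rfl fun k hk => ?_
      rw [Finset.mem_range] at hk
      refine Finset.sum_congr ?_ fun _ _ => rfl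
      ext S
      rw [Finset.mem_filter, Finset.mem_filter, Finset.mem_powerset, Finset.mem_powersetCard]
      constructor
      · rintro ⟨⟨h1, _⟩, h2⟩
        exact ⟨h1, h2⟩
      · rintro ⟨h1, h2⟩
        exact ⟨⟨h1, by omega⟩, h2⟩
    · intro S hS
      rw [Finset.mem_filter] at hS
      rw [Finset.mem_range]
      omega
  rw [h1]
  refine (norm_sum_le _ _).trans ?_
  calc ∑ k ∈ Finset.range (K + 1), ‖∑ S ∈ Q.powersetCard k, ∏ p ∈ S, x p‖ ≤ ∑ _k ∈ Finset.range (K + 1), E :=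
        Finset.sum_le_sum fun k _ => esum_one x (fun w hw => norm_prod_le x hx hw) k
    _ = (K + 1) * E := by
        rw [Finset.sum_const, Finset.card_range, nsmul_eq_mul]
        push_cast
        ring

end Pool.Agent.Helper8.UW
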