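import Pool.Agent.Helper8.UW.T1

/-!
# Project UW, T4: the large values of the resonator under its weight
-/

set_option autoImplicit false
open MeasureTheory Set Filter Topology
open Pool.Agent.Helper57.Zeta Pool.Agent.Helper57.LH Pool.Agent.Helper57.ED Pool.Agent.Helper54.LG
open Pool.Agent.Helper69.UG (pt NX XX NR NM WW near far)
open Pool.Agent.Helper69.UV (ww HH)
open Pool.Agent.Helper69.UW

namespace Pool.Agent.Helper8.UW

lemma fact_le {k : ℕ} (hk : 1 ≤ k) : (k.factorial : ℝ) ≤ (k : ℝ) ^ (k + 1) * Real.exp (1 - k) := by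
  induction k, hk using Nat.le_induction with
  | base => simp
  | succ k hk ih =>
    have hk0 : (0 : ℝ) < k := by exact_mod_cast hk
    have h1 : 1 ≤ ((k : ℝ) + 1) * Real.log (((k : ℝ) + 1) / k) := by
      have h2 := Real.one_sub_inv_le_log_of_pos (x := ((k : ℝ) + 1) / k) (by positivity)
      have h3 : 1 - (((k : ℝ) + 1) / k)⁻¹ = 1 / ((k : ℝ) + 1) := by
        rw [inv_div]
        field_simp
        ring
      rw [h3, div_le_iff₀ (by positivity)] at h2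
      linarith
    have h4 : Real.exp 1 ≤ (((k : ℝ) + 1) / k) ^ (k + 1) := by
      have h5 : Real.exp (((k : ℝ) + 1) * Real.log (((k : ℝ) + 1) / k)) = (((k : ℝ) + 1) / k) ^ (k + 1) := by
        rw [mul_comm, Real.exp_mul, Real.exp_log (by positivity)]
        rw [← Real.rpow_natCast]
        push_cast
        rfl
      rw [← h5]
      exact Real.exp_le_exp.2 h1
    have h6 : (k : ℝ) ^ (k + 1) * Real.exp 1 ≤ ((k : ℝ) + 1) ^ (k + 1) := by
      rw [div_pow, le_div_iff₀ (by positivity)] at h4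
      linarith
    rw [Nat.factorial_succ]
    push_cast
    have h7 : Real.exp (1 - ((k : ℝ) + 1)) = Real.exp (1 - k) * Real.exp (-1) := by
      rw [← Real.exp_add]
      congr 1
      ring
    have h8 : Real.exp 1 * Real.exp (-1) = 1 := by
      rw [← Real.exp_add]
      simp
    rw [h7]
    calc ((k : ℝ) + 1) * (k.factorial : ℝ) ≤ ((k : ℝ) + 1) * ((k : ℝ) ^ (k + 1) * Real.exp (1 - k)) :=
          mul_le_mul_of_nonneg_left ih (by positivity)
      _ = ((k : ℝ) + 1) * (((k : ℝ) ^ (k + 1) * Real.exp 1) * (Real.exp (1 - k) * Real.exp (-1))) := by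
          linear_combination (-(((k : ℝ) + 1) * (k : ℝ) ^ (k + 1) * Real.exp (1 - k))) * h8
      _ ≤ ((k : ℝ) + 1) * (((k : ℝ) + 1) ^ (k + 1) * (Real.exp (1 - k) * Real.exp (-1))) := by
          refine mul_le_mul_of_nonneg_left (mul_le_mul_of_nonneg_right h6 (by positivity)) (by positivity)
      _ = _ := by ring

lemma fact_div {k : ℕ} (hk : 1 ≤ k) {x : ℝ} (hx : (k : ℝ) ≤ x) (hx1 : x ≤ k + 1) :
    (k.factorial : ℝ) / x ^ k ≤ k * Real.exp (2 - x) := by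
  have hk0 : (0 : ℝ) < k := by exact_mod_cast hk
  have hx0 : 0 < x := by linarith
  rw [div_le_iff₀ (by positivity)]
  have h1 := fact_le hk
  have h2 : (k : ℝ) ^ k ≤ x ^ k := pow_le_pow_left₀ hk0.le hx k
  have h3 : Real.exp (1 - (k : ℝ)) ≤ Real.exp (2 - x) := Real.exp_le_exp.2 (by linarith)
  calc (k.factorial : ℝ) ≤ (k : ℝ) ^ (k + 1) * Real.exp (1 - k) := h1
    _ = k * (k : ℝ) ^ k * Real.exp (1 - k) := by ring
    _ ≤ k * x ^ k * Real.exp (2 - x) := by gcongr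
    _ = _ := by ring

/-- the numbers -/
lemma numbers {δ c0 C T c m : ℝ} (hδ : 0 < δ) (hδ1 : δ ≤ 1 / 32) (hC : 0 < C) (h3 : 3 ≤ c0) (hc0 : 2 / δ ^ 2 ≤ c0)
    (hcC : 2 * (C * Real.exp 4) ≤ c0) (hA : Adm c0 T c m) :
    let D := (1 + 20 * δ) ^ 2 * K0 c m
    let Λ := (1 + δ) * (1 + 2 * δ) * D
    0 ≤ K0 c m ∧ K0 c m ≤ D ∧ 1 ≤ δ * Λ ∧ δ * Λ ≤ m ∧
    (KR δ m + 1) ^ 2 * Real.exp (2 * (Λ + 2)) ≤ Real.exp ((1 + 100 * δ) * K0 c m) * (Real.exp ((1 - 2 * δ) * D) / 2) ∧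
    C * m ^ 2 * Real.exp 4 * Real.exp (-(δ ^ 2 * K0 c m)) ≤ 1 / (2 * c ^ 2) := by
  intro D Λ
  have hA3 : Adm 3 T c m := hA.mono h3
  have hc3 := hA.1
  have hm1 := hA.2.1
  have hmc := hA.m_le_c (by linarith)
  have hlc := hA.one_le_log
  have hll1 : 1 ≤ ll c m := by
    refine le_trans ?_ (hA3.log_le_ll (by norm_num))
    rw [Real.le_log_iff_exp_le (by norm_num)]
    linarith [Real.exp_one_lt_d9]
  have hlll := hA.ll_le
  have hml := hA.2.2.1
  set lc := Real.log c with hlcdef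
  have hpi3 := Real.pi_gt_three
  have hpi := Real.pi_lt_d2
  have hc0' : 0 < c0 := by linarith
  have hKlow : 4 * c0 * lc ≤ K0 c m := by
    unfold Pool.Agent.Helper69.UW.K0
    rw [le_div_iff₀ (by positivity)]
    calc 4 * c0 * lc * (2 * ll c m) ≤ 4 * c0 * lc * (2 * lc) := by gcongr
      _ = 8 * (c0 * lc ^ 2) := by ring
      _ ≤ 8 * m := by linarith
      _ ≤ Real.pi ^ 2 * m := by
          refine mul_le_mul_of_nonneg_right ?_ (by linarith)
          nlinarith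
  have hKup : K0 c m ≤ 5 * m := by
    unfold Pool.Agent.Helper69.UW.K0
    rw [div_le_iff₀ (by positivity)]
    have h1 : Real.pi ^ 2 ≤ 10 := by nlinarith
    calc Real.pi ^ 2 * m ≤ 10 * m := mul_le_mul_of_nonneg_right h1 (by linarith)
      _ = 5 * m * (2 * 1) := by ring
      _ ≤ 5 * m * (2 * ll c m) := by gcongr
  have hK0 : 0 ≤ K0 c m := le_trans (by positivity) hKlow
  set K := K0 c m with hKdef
  have hδ2 : δ ^ 2 ≤ δ / 32 := by nlinarith
  have hδ3 : δ ^ 3 ≤ δ / 1024 := by nlinarith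
  have hδ4 : δ ^ 4 ≤ δ / 32768 := by nlinarith
  have hδ5 : 0 ≤ δ ^ 2 := by positivity
  have hδ6 : 0 ≤ δ ^ 3 := by positivity
  have hD1 : 1 ≤ (1 + 20 * δ) ^ 2 := by nlinarith
  have hDD : D = (1 + 20 * δ) ^ 2 * K := rfl
  have hΛD : Λ = (1 + δ) * (1 + 2 * δ) * D := rfl
  have hKD : K ≤ D := by
    rw [hDD]
    nlinarith
  have hΛlow : K ≤ Λ := by
    have h1 : 1 ≤ (1 + δ) * (1 + 2 * δ) := by nlinarith
    rw [hΛD]
    nlinarith
  have hΛup : Λ ≤ 3 * K := by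
    have h1 : (1 + δ) * (1 + 2 * δ) * (1 + 20 * δ) ^ 2 ≤ 3 := by
      have e : (1 + δ) * (1 + 2 * δ) * (1 + 20 * δ) ^ 2 = 1 + 43 * δ + 522 * δ ^ 2 + 1280 * δ ^ 3 + 800 * δ ^ 4 := by ring
      rw [e]
      nlinarith
    calc Λ = (1 + δ) * (1 + 2 * δ) * (1 + 20 * δ) ^ 2 * K := by rw [hΛD, hDD]; ring
      _ ≤ 3 * K := mul_le_mul_of_nonneg_right h1 hK0
  have hδc : 2 ≤ c0 * δ ^ 2 := by
    rw [div_le_iff₀ (by positivity)] at hc0
    exact hc0
  have hδc1 : 64 ≤ c0 * δ := by nlinarith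
  refine ⟨hK0, hKD, ?_, ?_, ?_, ?_⟩
  · have h1 : δ * (4 * c0 * lc) ≤ δ * Λ := mul_le_mul_of_nonneg_left (hKlow.trans hΛlow) hδ.le
    have h2 : 1 ≤ δ * (4 * c0 * lc) := by
      have h3 : δ * (4 * c0 * lc) = 4 * (c0 * δ) * lc := by ring
      rw [h3]
      nlinarith
    linarith
  · have h1 : δ * Λ ≤ 1 / 32 * (3 * (5 * m)) := by
      refine mul_le_mul hδ1 (hΛup.trans (by linarith)) ?_ (by norm_num)
      linarith
    linarith
  · -- the value off the exceptional set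
    have hKR : (KR δ m : ℝ) + 1 ≤ 9 / δ * c := by
      have h1 : (KR δ m : ℝ) ≤ 8 * m / δ := Nat.floor_le (by positivity)
      have h2 : 1 ≤ m / δ := by
        rw [le_div_iff₀ hδ]
        linarith
      have h3 : 8 * m / δ + m / δ = 9 / δ * m := by ring
      have h4 : 9 / δ * m ≤ 9 / δ * c := by gcongr
      have h5 : 8 * m / δ + 1 ≤ 8 * m / δ + m / δ := by linarith
      linarith
    have hKR0 : (0 : ℝ) < KR δ m + 1 := by positivity
    have hcpos : 0 < c := by linarith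
    have hlog : Real.log (KR δ m + 1) ≤ 9 / δ + lc := by
      calc Real.log (KR δ m + 1) ≤ Real.log (9 / δ * c) := Real.log_le_log hKR0 hKR
        _ = Real.log (9 / δ) + lc := Real.log_mul (by positivity) (by positivity)
        _ ≤ 9 / δ + lc := by
            have := Real.log_le_self (x := 9 / δ) (by positivity)
            linarith
    have hmain : 2 * Λ - (1 - 2 * δ) * D ≤ (1 + 77 * δ) * K := by
      have e : 2 * Λ - (1 - 2 * δ) * D = (1 + 48 * δ + 724 * δ ^ 2 + 3360 * δ ^ 3 + 1600 * δ ^ 4) * K := by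
        rw [hΛD, hDD]
        ring
      rw [e]
      refine mul_le_mul_of_nonneg_right ?_ hK0
      linarith
    have hpay : 2 * Real.log (KR δ m + 1) + 5 ≤ 23 * δ * K := by
      have h1 : 23 * δ * (4 * c0 * lc) ≤ 23 * δ * K := mul_le_mul_of_nonneg_left hKlow (by positivity)
      have h2 : 23 * δ * (4 * c0 * lc) = 92 * (c0 * δ) * lc := by ring
      have h3 : 2 / δ ≤ c0 * δ := by
        rw [div_le_iff₀ hδ]
        nlinarith
      have h4 : 92 * (c0 * δ) ≥ 9 * (2 / δ) + 83 * 64 := by linarith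
      have h5 : 9 * (2 / δ) = 18 / δ := by ring
      have h6 : 0 ≤ 18 / δ := by positivity
      have h7 : (18 / δ + 83 * 64) * 1 ≤ (92 * (c0 * δ)) * lc :=
        mul_le_mul (by linarith) hlc (by norm_num) (by positivity)
      have h8 : (18 / δ + 83 * 64) * lc ≤ (92 * (c0 * δ)) * lc := mul_le_mul_of_nonneg_right (by linarith) (by linarith)
      have h9 : (18 / δ) * 1 ≤ (18 / δ) * lc := mul_le_mul_of_nonneg_left hlc h6
      have h10 : 2 * (9 / δ) = 18 / δ := by ring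
      nlinarith
    have hln2 : Real.log 2 ≤ 1 := by
      have := Real.log_two_lt_d9
      linarith
    have e1 : ((KR δ m : ℝ) + 1) ^ 2 = Real.exp (2 * Real.log (KR δ m + 1)) := by
      rw [mul_comm, Real.exp_mul, Real.exp_log hKR0]
      norm_cast
    have e2 : Real.exp ((1 - 2 * δ) * D) / 2 = Real.exp ((1 - 2 * δ) * D - Real.log 2) := by
      rw [Real.exp_sub, Real.exp_log (by norm_num)]
    rw [e1, e2, ← Real.exp_add, ← Real.exp_add]
    refine Real.exp_le_exp.2 ?_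
    have e3 : (1 + 100 * δ) * K = (1 + 77 * δ) * K + 23 * δ * K := by ring
    rw [e3]
    linarith
  · have hcpos : 0 < c := by linarith
    have h1 : 8 * lc ≤ δ ^ 2 * K := by
      have h2 : δ ^ 2 * (4 * c0 * lc) ≤ δ ^ 2 * K := mul_le_mul_of_nonneg_left hKlow hδ5
      have h3 : δ ^ 2 * (4 * c0 * lc) = 4 * (c0 * δ ^ 2) * lc := by ring
      have h4 : 4 * 2 * lc ≤ 4 * (c0 * δ ^ 2) * lc := by gcongr
      linarith
    have h2 : Real.exp (-(δ ^ 2 * K)) ≤ (c ^ 8)⁻¹ := by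
      have h3 : Real.exp (-(8 * lc)) = (c ^ 8)⁻¹ := by
        rw [Real.exp_neg, show (8 : ℝ) * lc = lc * 8 by ring, Real.exp_mul, Real.exp_log hcpos]
        norm_cast
      rw [← h3]
      exact Real.exp_le_exp.2 (by linarith)
    have hcc : 2 * (C * Real.exp 4) ≤ c := hcC.trans (hA.le_c hc0'.le)
    have he4 : 0 < Real.exp 4 := Real.exp_pos 4
    calc C * m ^ 2 * Real.exp 4 * Real.exp (-(δ ^ 2 * K)) ≤ C * c ^ 2 * Real.exp 4 * (c ^ 8)⁻¹ := by gcongr
      _ = (2 * (C * Real.exp 4)) / (2 * c ^ 6) := by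
          field_simp
      _ ≤ c / (2 * c ^ 6) := by gcongr
      _ ≤ 1 / (2 * c ^ 2) := by
          rw [div_le_div_iff₀ (by positivity) (by positivity)]
          have h5 : 1 ≤ c ^ 3 := one_le_pow₀ (by linarith)
          calc c * (2 * c ^ 2) = 2 * c ^ 3 * 1 := by ring
            _ ≤ 2 * c ^ 3 * c ^ 3 := by gcongr
            _ = 1 * (2 * c ^ 6) := by ring

lemma RR_cont (δ T c m v : ℝ) : Continuous (RR δ T c m v) := by
  unfold RR
  refine continuous_finsetSum _ fun n hn => ?_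
  have hn0 : (n : ℂ) ≠ 0 := by
    have := (Finset.mem_Icc.1 hn).1
    exact_mod_cast (by omega : n ≠ 0)
  refine continuous_const.mul (Continuous.const_cpow (by fun_prop) (Or.inl hn0))

lemma wt_nonneg {δ T c m v τ : ℝ} (hT : 0 < T) (t : ℝ) : 0 ≤ wt δ T c m v τ t := by
  unfold wt PW WW
  have := Real.pi_pos
  positivity

theorem rtail_of {δ : ℝ} (hδ : 0 < δ) (hδ1 : δ ≤ 1 / 32)
    (hRR : ∃ c0 T0 : ℝ, ∀ T c m v : ℝ, T0 ≤ T → Adm c0 T c m → |v| = vv δ c m →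
      ∀ t : ℝ, ‖RR δ T c m v t‖ ≤ (KR δ m + 1) * Real.exp (‖PP1 δ T c m v t‖ + ‖PP2 δ T c m v t‖ + 1))
    (hP : ∃ C c0 T0 : ℝ, 0 < C ∧ ∀ T c m v : ℝ, T0 ≤ T → Adm c0 T c m →
      |v| = vv δ c m → ∀ (s τ : ℝ) (k : ℕ), 0 < s → s ≤ 1 → (k : ℝ) ≤ 4 * m →
      Integrable (fun t => wt δ T c m v τ t * ‖PP1 δ T c m v t‖ ^ (2 * k)) ∧
      ∫ t, wt δ T c m v τ t * ‖PP1 δ T c m v t‖ ^ (2 * k) ≤
        C * (k.factorial / s ^ k) ^ 2 * Real.exp ((2 * s + s ^ 2) * KK δ T c m v) * VV δ T c m v)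
    (hP2 : ∃ c0 T0 : ℝ, ∀ T c m v : ℝ, T0 ≤ T → Adm c0 T c m → |v| = vv δ c m →
      ∀ τ : ℝ, Integrable (fun t => wt δ T c m v τ t * ‖PP2 δ T c m v t‖ ^ 2) ∧
      ∫ t, wt δ T c m v τ t * ‖PP2 δ T c m v t‖ ^ 2 ≤ VV δ T c m v / c ^ 4)
    (hKK : ∃ c0 T0 : ℝ, ∀ T c m v : ℝ, T0 ≤ T → Adm c0 T c m → |v| = vv δ c m →
      (1 - 2 * δ) * ((1 + 20 * δ) ^ 2 * K0 c m) ≤ KK δ T c m v ∧
      KK δ T c m v ≤ (1 + 2 * δ) * ((1 + 20 * δ) ^ 2 * K0 c m))
    (hVV : ∃ c0 T0 : ℝ, ∀ T c m v : ℝ, T0 ≤ T → Adm c0 T c m → |v| = vv δ c m →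
      Real.exp (KK δ T c m v) / 2 ≤ VV δ T c m v ∧ VV δ T c m v ≤ Real.exp (KK δ T c m v)) :
    ∃ c0 T0 : ℝ, ∀ T c m v : ℝ, T0 ≤ T → Adm c0 T c m → |v| = vv δ c m →
      ∀ τ : ℝ, ∫ t in {t : ℝ | Real.exp ((1 + 100 * δ) * K0 c m) * VV δ T c m v < ‖RR δ T c m v t‖ ^ 2}, wt δ T c m v τ t ≤
        VV δ T c m v / c ^ 2 := by
  obtain ⟨a1, T1, h1⟩ := hRR
  obtain ⟨C, a2, T2, hC, h2⟩ := hP
  obtain ⟨a3, T3, h3⟩ := hP2
  obtain ⟨a4, T4, h4⟩ := hKK
  obtain ⟨a5, T5, h5⟩ := hVV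
  refine ⟨max (max (max a1 a2) (max a3 a4)) (max (max a5 3) (max (2 / δ ^ 2) (2 * (C * Real.exp 4)))),
    max (max (max T1 T2) (max T3 T4)) (max T5 1), fun T c m v hT hA hv τ => ?_⟩
  set c0 := max (max (max a1 a2) (max a3 a4)) (max (max a5 3) (max (2 / δ ^ 2) (2 * (C * Real.exp 4)))) with hc0
  have b1 : a1 ≤ c0 := (le_max_left _ _).trans ((le_max_left _ _).trans (le_max_left _ _))
  have b2 : a2 ≤ c0 := (le_max_right _ _).trans ((le_max_left _ _).trans (le_max_left _ _))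
  have b3 : a3 ≤ c0 := (le_max_left _ _).trans ((le_max_right _ _).trans (le_max_left _ _))
  have b4 : a4 ≤ c0 := (le_max_right _ _).trans ((le_max_right _ _).trans (le_max_left _ _))
  have b5 : a5 ≤ c0 := (le_max_left _ _).trans ((le_max_left _ _).trans (le_max_right _ _))
  have b6 : 3 ≤ c0 := (le_max_right _ _).trans ((le_max_left _ _).trans (le_max_right _ _))
  have b7 : 2 / δ ^ 2 ≤ c0 := (le_max_left _ _).trans ((le_max_right _ _).trans (le_max_right _ _))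
  have b8 : 2 * (C * Real.exp 4) ≤ c0 := (le_max_right _ _).trans ((le_max_right _ _).trans (le_max_right _ _))
  have t1 : T1 ≤ T := (le_max_left _ _).trans ((le_max_left _ _).trans ((le_max_left _ _).trans hT))
  have t2 : T2 ≤ T := (le_max_right _ _).trans ((le_max_left _ _).trans ((le_max_left _ _).trans hT))
  have t3 : T3 ≤ T := (le_max_left _ _).trans ((le_max_right _ _).trans ((le_max_left _ _).trans hT))
  have t4 : T4 ≤ T := (le_max_right _ _).trans ((le_max_right _ _).trans ((le_max_left _ _).trans hT))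
  have t5 : T5 ≤ T := (le_max_left _ _).trans ((le_max_right _ _).trans hT)
  have t6 : 1 ≤ T := (le_max_right _ _).trans ((le_max_right _ _).trans hT)
  have hT0 : 0 < T := by linarith
  have g1 := h1 T c m v t1 (hA.mono b1) hv
  obtain ⟨g4, g4'⟩ := h4 T c m v t4 (hA.mono b4) hv
  obtain ⟨g5, g5'⟩ := h5 T c m v t5 (hA.mono b5) hv
  obtain ⟨g3, g3'⟩ := h3 T c m v t3 (hA.mono b3) hv τ
  obtain ⟨n1, n2, n3, n4, n5, n6⟩ := numbers hδ hδ1 hC b6 b7 b8 hA
  set D := (1 + 20 * δ) ^ 2 * K0 c m with hD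
  set Λ := (1 + δ) * (1 + 2 * δ) * D with hΛ
  set k := ⌊δ * Λ⌋₊ with hk
  have hk1 : 1 ≤ k := by
    rw [hk, Nat.one_le_floor_iff]
    exact n3
  have hk2 : (k : ℝ) ≤ δ * Λ := Nat.floor_le (by linarith)
  have hk3 : δ * Λ ≤ k + 1 := (Nat.lt_floor_add_one _).le
  have hm1 := hA.2.1
  have hc3 := hA.1
  have hkm : (k : ℝ) ≤ m := hk2.trans n4
  obtain ⟨g2, g2'⟩ := h2 T c m v t2 (hA.mono b2) hv δ τ k hδ (by linarith) (by linarith)
  have hVV0 : 0 < VV δ T c m v := lt_of_lt_of_le (by positivity) g5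
  have hΛ0 : 0 < Λ := by
    by_contra h
    push Not at h
    have := mul_nonpos_of_nonneg_of_nonpos hδ.le h
    linarith
  set A : Set ℝ := {t : ℝ | Real.exp ((1 + 100 * δ) * K0 c m) * VV δ T c m v < ‖RR δ T c m v t‖ ^ 2} with hAdef
  have hAm : MeasurableSet A := by
    refine measurableSet_lt measurable_const ?_
    exact ((RR_cont δ T c m v).norm.pow 2).measurable
  -- on `A` one of the two prime sums is large
  have hone : ∀ t ∈ A, 1 ≤ ‖PP1 δ T c m v t‖ ^ (2 * k) * (Λ ^ (2 * k))⁻¹ + ‖PP2 δ T c m v t‖ ^ 2 := by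
    intro t ht
    have hp1 : 0 ≤ ‖PP1 δ T c m v t‖ ^ (2 * k) * (Λ ^ (2 * k))⁻¹ := by positivity
    have hp2 : 0 ≤ ‖PP2 δ T c m v t‖ ^ 2 := by positivity
    rcases lt_or_ge Λ ‖PP1 δ T c m v t‖ with h | h
    · have h6 : Λ ^ (2 * k) ≤ ‖PP1 δ T c m v t‖ ^ (2 * k) := pow_le_pow_left₀ hΛ0.le h.le _
      have h7 : 1 ≤ ‖PP1 δ T c m v t‖ ^ (2 * k) * (Λ ^ (2 * k))⁻¹ := by
        rw [← div_eq_mul_inv, le_div_iff₀ (by positivity), one_mul]
        exact h6
      linarith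
    · rcases lt_or_ge 1 ‖PP2 δ T c m v t‖ with h' | h'
      · have : 1 ≤ ‖PP2 δ T c m v t‖ ^ 2 := one_le_pow₀ h'.le
        linarith
      · exfalso
        have h6 : ‖RR δ T c m v t‖ ^ 2 ≤ (KR δ m + 1) ^ 2 * Real.exp (2 * (Λ + 2)) := by
          have h7 : ‖RR δ T c m v t‖ ≤ (KR δ m + 1) * Real.exp (Λ + 2) := by
            refine (g1 t).trans (mul_le_mul_of_nonneg_left (Real.exp_le_exp.2 ?_) (by positivity))
            linarith
          have h8 := pow_le_pow_left₀ (norm_nonneg _) h7 2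
          rw [mul_pow, ← Real.exp_nat_mul] at h8
          exact_mod_cast h8
        have h7 : Real.exp ((1 + 100 * δ) * K0 c m) * (Real.exp ((1 - 2 * δ) * D) / 2) ≤
            Real.exp ((1 + 100 * δ) * K0 c m) * VV δ T c m v := by
          refine mul_le_mul_of_nonneg_left ?_ (Real.exp_pos _).le
          have := Real.exp_le_exp.2 g4
          linarith
        have h8 : Real.exp ((1 + 100 * δ) * K0 c m) * VV δ T c m v < ‖RR δ T c m v t‖ ^ 2 := ht
        linarith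
  set g : ℝ → ℝ := fun t => (Λ ^ (2 * k))⁻¹ * (wt δ T c m v τ t * ‖PP1 δ T c m v t‖ ^ (2 * k)) +
    wt δ T c m v τ t * ‖PP2 δ T c m v t‖ ^ 2 with hg
  have hgi : Integrable g := (g2.const_mul _).add g3
  have hw0 : ∀ t, 0 ≤ wt δ T c m v τ t := fun t => wt_nonneg hT0 t
  have hg0 : ∀ t, 0 ≤ g t := fun t => by
    have := hw0 t
    simp only [hg]
    positivity
  have hint : ∫ t in A, wt δ T c m v τ t ≤ ∫ t in A, g t := by
    refine integral_mono_of_nonneg (Eventually.of_forall fun t => hw0 t) hgi.integrableOn ?_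
    refine (ae_restrict_iff' hAm).2 (Eventually.of_forall fun t ht => ?_)
    have h6 := hone t ht
    have h7 := mul_le_mul_of_nonneg_left h6 (hw0 t)
    simp only [hg]
    linarith
  have hint2 : ∫ t in A, g t ≤ ∫ t, g t := setIntegral_le_integral hgi (Eventually.of_forall hg0)
  have hint3 : ∫ t, g t = (Λ ^ (2 * k))⁻¹ * (∫ t, wt δ T c m v τ t * ‖PP1 δ T c m v t‖ ^ (2 * k)) +
      ∫ t, wt δ T c m v τ t * ‖PP2 δ T c m v t‖ ^ 2 := by
    rw [hg, integral_add (g2.const_mul _) g3, integral_const_mul]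
  -- the moment
  have hmom : (Λ ^ (2 * k))⁻¹ * (∫ t, wt δ T c m v τ t * ‖PP1 δ T c m v t‖ ^ (2 * k)) ≤ VV δ T c m v / (2 * c ^ 2) := by
    have hq : (Λ ^ (2 * k))⁻¹ * ((k.factorial : ℝ) / δ ^ k) ^ 2 = ((k.factorial : ℝ) / (δ * Λ) ^ k) ^ 2 := by
      have e1 : Λ ^ (2 * k) = (Λ ^ k) ^ 2 := by rw [← pow_mul, mul_comm]
      have e2 : (δ * Λ) ^ k = δ ^ k * Λ ^ k := mul_pow _ _ _
      have e3 : Λ ^ k ≠ 0 := (pow_pos hΛ0 k).ne'
      have e4 : δ ^ k ≠ 0 := (pow_pos hδ k).ne'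
      rw [e1, e2]
      generalize Λ ^ k = x at e3 ⊢
      generalize δ ^ k = y at e4 ⊢
      field_simp
    have hfd := fact_div hk1 hk2 hk3
    have hfd2 : ((k.factorial : ℝ) / (δ * Λ) ^ k) ^ 2 ≤ m ^ 2 * Real.exp (4 - 2 * (δ * Λ)) := by
      have h6 : (0 : ℝ) ≤ (k.factorial : ℝ) / (δ * Λ) ^ k := by positivity
      have h7 := pow_le_pow_left₀ h6 hfd 2
      refine h7.trans ?_
      rw [mul_pow, ← Real.exp_nat_mul]
      have h8 : (k : ℝ) ^ 2 ≤ m ^ 2 := pow_le_pow_left₀ (by positivity) hkm 2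
      have h9 : ((2 : ℕ) : ℝ) * (2 - δ * Λ) = 4 - 2 * (δ * Λ) := by
        push_cast
        ring
      rw [h9]
      exact mul_le_mul_of_nonneg_right h8 (Real.exp_pos _).le
    have hex : Real.exp (4 - 2 * (δ * Λ)) * Real.exp ((2 * δ + δ ^ 2) * KK δ T c m v) ≤
        Real.exp 4 * Real.exp (-(δ ^ 2 * K0 c m)) := by
      rw [← Real.exp_add, ← Real.exp_add]
      refine Real.exp_le_exp.2 ?_
      have h6 : (2 * δ + δ ^ 2) * KK δ T c m v ≤ (2 * δ + δ ^ 2) * ((1 + 2 * δ) * D) :=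
        mul_le_mul_of_nonneg_left g4' (by positivity)
      have h7 : (2 * δ + δ ^ 2) * ((1 + 2 * δ) * D) - 2 * (δ * Λ) = -(δ ^ 2 * D) - 2 * δ ^ 3 * D := by
        rw [hΛ]
        ring
      have h8 : δ ^ 2 * K0 c m ≤ δ ^ 2 * D := mul_le_mul_of_nonneg_left n2 (by positivity)
      have h9 : 0 ≤ 2 * δ ^ 3 * D := by
        have : 0 ≤ D := n1.trans n2
        positivity
      linarith
    have hΛi : 0 ≤ (Λ ^ (2 * k))⁻¹ := by positivity
    calc (Λ ^ (2 * k))⁻¹ * (∫ t, wt δ T c m v τ t * ‖PP1 δ T c m v t‖ ^ (2 * k)) ≤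
          (Λ ^ (2 * k))⁻¹ * (C * (k.factorial / δ ^ k) ^ 2 * Real.exp ((2 * δ + δ ^ 2) * KK δ T c m v) * VV δ T c m v) :=
          mul_le_mul_of_nonneg_left g2' hΛi
      _ = C * ((Λ ^ (2 * k))⁻¹ * ((k.factorial : ℝ) / δ ^ k) ^ 2) * Real.exp ((2 * δ + δ ^ 2) * KK δ T c m v) * VV δ T c m v := by
          ring
      _ = C * ((k.factorial : ℝ) / (δ * Λ) ^ k) ^ 2 * Real.exp ((2 * δ + δ ^ 2) * KK δ T c m v) * VV δ T c m v := by
          rw [hq]
      _ ≤ C * (m ^ 2 * Real.exp (4 - 2 * (δ * Λ))) * Real.exp ((2 * δ + δ ^ 2) * KK δ T c m v) * VV δ T c m v := by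
          gcongr
      _ = C * m ^ 2 * (Real.exp (4 - 2 * (δ * Λ)) * Real.exp ((2 * δ + δ ^ 2) * KK δ T c m v)) * VV δ T c m v := by
          ring
      _ ≤ C * m ^ 2 * (Real.exp 4 * Real.exp (-(δ ^ 2 * K0 c m))) * VV δ T c m v := by
          gcongr
      _ = (C * m ^ 2 * Real.exp 4 * Real.exp (-(δ ^ 2 * K0 c m))) * VV δ T c m v := by ring
      _ ≤ (1 / (2 * c ^ 2)) * VV δ T c m v := mul_le_mul_of_nonneg_right n6 hVV0.le
      _ = _ := by ring
  have hlast : VV δ T c m v / c ^ 4 ≤ VV δ T c m v / (2 * c ^ 2) := by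
    refine div_le_div_of_nonneg_left hVV0.le (by positivity) ?_
    have : 2 ≤ c ^ 2 := by nlinarith
    calc 2 * c ^ 2 ≤ c ^ 2 * c ^ 2 := mul_le_mul_of_nonneg_right this (by positivity)
      _ = c ^ 4 := by ring
  calc ∫ t in A, wt δ T c m v τ t ≤ ∫ t, g t := hint.trans hint2
    _ ≤ VV δ T c m v / (2 * c ^ 2) + VV δ T c m v / (2 * c ^ 2) := by
        rw [hint3]
        linarith
    _ = VV δ T c m v / c ^ 2 := by
        field_simp
        ring

end Pool.Agent.Helper8.UW
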